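import Pool.Agent.Helper1.TE.Goals2

/-!
# PROJECT TE (MP_8b4d68_lc): packet FX
-/

namespace Pool.Agent.Helper81.TE

open Pool.Agent.Helper1.TE
open Pool.Agent.Helper65.LinSpace (dig tab nrec ifz eq01 le01 lt01 capPow Ctx)
open Finset

/-- A chain with a new first step. -/
theorem ch_head {S : Type} (step : ℕ → ℕ → ℕ → S → Option S) (K : ℕ) {n : ℕ} {a b : ℕ}
    {s s' s'' : S} (ha : a < K) (hb : b < K) (h0 : step 0 a b s = some s')
    (h : Ch (fun t => step (1 + t)) K n s' s'') : Ch step K (n + 1) s s'' := by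
  induction h with
  | zero s' => exact Ch.succ a b ha hb (Ch.zero s) h0
  | succ a' b' ha' hb' _ h' ih =>
    refine Ch.succ a' b' ha' hb' (ih h0) ?_
    rw [Nat.add_comm]
    exact h'

/-- From the rejecting state only the rejecting state is reachable. -/
theorem nx_rej (ok : ℕ → ℕ → ℕ) (tst : ℕ → ℕ) (mal : ℕ) (w : List Bool) (γ : ℕ) :
    (machM ok tst mal).nx w rejS γ = rejS := by
  unfold NumMach.nx
  generalize codeB w[(machM ok tst mal).addr rejS]? = y
  simp [machM, nextM, nextN, cif, rejS, hdr, Sta.mo, eq01]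

theorem reach_rej (ok : ℕ → ℕ → ℕ) (tst : ℕ → ℕ) (mal : ℕ) (w : List Bool) (y : Sta)
    (h : Relation.ReflTransGen (fun x x' => ∃ γ < 2, x' = (machM ok tst mal).nx w x γ) rejS y) :
    y = rejS := by
  induction h with
  | refl => rfl
  | tail _ h2 ih =>
    obtain ⟨γ, _, rfl⟩ := h2
    rw [ih]
    exact nx_rej ok tst mal w γ

theorem acc_ne_rej : accS ≠ rejS := by
  intro h
  have h2 := congrArg Sta.mo h
  simp [accS, rejS, hdr, Sta.mo] at h2

theorem acc_ne_main (h b u W τ g v : ℕ) (C : C3) : accS ≠ mainS h b u W τ g v C := by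
  intro h
  have h2 := congrArg Sta.mo h
  simp [accS, mainS, hdr, Sta.mo] at h2

/-- The next state in the main loop. -/
theorem nx_main (ok : ℕ → ℕ → ℕ) (tst : ℕ → ℕ) (mal : ℕ) (w : List Bool) (h b u W τ g v : ℕ)
    (C : C3) (γ : ℕ) : ∃ y : ℕ,
    (machM ok tst mal).nx w (mainS h b u W τ g v C) γ = rejS ∨
    (machM ok tst mal).nx w (mainS h b u W τ g v C) γ =
      if 2 * b - u = 0 then
        (if 3 * b - u = 0 then
          (if bigT h b W tst τ v C = 0 then rejS
            else if (τ + 1) / 5 ^ h = 0 then mainS h b 0 W (τ + 1) 0 0 (bigC h b W τ g v C)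
            else accS)
          else mainS h b (u + 1) W τ g y C)
      else mainS h b (u + 1) W τ (2 * g + γ) v C := by
  refine ⟨2 * v + (codeB w[(machM ok tst mal).addr (mainS h b u W τ g v C)]? - 1), ?_⟩
  unfold NumMach.nx
  generalize codeB w[(machM ok tst mal).addr (mainS h b u W τ g v C)]? = y
  change nextM ok tst mal (mainS h b u W τ g v C) y γ = rejS ∨
    nextM ok tst mal (mainS h b u W τ g v C) y γ = _
  unfold nextM
  by_cases hq : γ * (1 - gqM (mainS h b u W τ g v C)) = 0
  · right
    rw [hq]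
    rfl
  · left
    simp only [cif, if_neg hq]
    rfl

/-- Inversion of the invariant in mode 7. -/
theorem inv_main {ok : ℕ → ℕ → ℕ} {tst : ℕ → ℕ} {mal : ℕ} {w : List Bool}
    {h b u W τ g v : ℕ} {C : C3} (hI : Inv ok tst mal w (mainS h b u W τ g v C)) :
    Full ok w h b ∧ τ < 5 ^ h ∧ u ≤ 3 * b ∧ g < 2 ^ min u (2 * b) ∧
      v = word (w.drop (h + b + 2)) (blkM h b (2 ^ EP h b) τ g * b) (u - 2 * b) := by
  generalize hx : mainS h b u W τ g v C = x at hI
  cases hI with
  | rej => exact absurd (congrArg Sta.mo hx) (by simp [mainS, rejS, hdr, Sta.mo])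
  | m0 h' h1 => exact absurd (congrArg Sta.mo hx) (by simp [mainS, hdr, Sta.mo])
  | m1 h' b' h1 => exact absurd (congrArg Sta.mo hx) (by simp [mainS, hdr, Sta.mo])
  | m2 h' b' u' h1 hu h2 => exact absurd (congrArg Sta.mo hx) (by simp [mainS, hdr, Sta.mo])
  | m3 h' b' u' h1 hu h2 h3 => exact absurd (congrArg Sta.mo hx) (by simp [mainS, hdr, Sta.mo])
  | m4 h' b' h1 h2 h3 => exact absurd (congrArg Sta.mo hx) (by simp [mainS, hdr, Sta.mo])
  | m5 h' b' h1 h2 h3 h4 => exact absurd (congrArg Sta.mo hx) (by simp [mainS, hdr, Sta.mo])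
  | m6 h' b' u' h1 hu => exact absurd (congrArg Sta.mo hx) (by simp [mainS, hdr, Sta.mo])
  | m8 h1 => exact absurd (congrArg Sta.mo hx) (by simp [mainS, accS, hdr, Sta.mo])
  | m7 h' b' u' τ' g' v' C' h1 hτ hu hg hv hC =>
    have e1 : h = h' := congrArg Sta.h hx
    have e2 : b = b' := congrArg Sta.b hx
    have e3 : u = u' := congrArg Sta.u hx
    have e4 : τ = τ' := congrArg Sta.τ hx
    have e5 : g = g' := congrArg Sta.g hx
    have e6 : v = v' := congrArg Sta.v hx
    subst e1 e2 e3 e4 e5 e6
    exact ⟨h1, hτ, hu, hg, hv⟩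

theorem main_inj {h b u W τ g v : ℕ} {C : C3} {h' b' u' W' τ' g' v' : ℕ} {C' : C3}
    (hx : mainS h b u W τ g v C = mainS h' b' u' W' τ' g' v' C') :
    h = h' ∧ b = b' ∧ u = u' ∧ τ = τ' ∧ g = g' ∧ v = v' ∧ C = C' :=
  ⟨congrArg Sta.h hx, congrArg Sta.b hx, congrArg Sta.u hx, congrArg Sta.τ hx,
    congrArg Sta.g hx, congrArg Sta.v hx, congrArg Sta.C hx⟩

/-- The big step is a step of the algorithm. -/
theorem big_step (hPB : GoalPB) (hCT : GoalCT) (hEB : GoalEB) (hEC : GoalEC) (hED : GoalED)
    (hEE : GoalEE) {ok : ℕ → ℕ → ℕ} (tst : ℕ → ℕ) {w : List Bool} {h b τ g v : ℕ} (C : C3)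
    (hF : Full ok w h b) (hτ : τ < 5 ^ h)
    (hv : v = word (w.drop (h + b + 2)) (blkM h b (2 ^ EP h b) τ g * b) b) :
    opM tst h b w τ (g / 2 ^ b) (g % 2 ^ b) (toF C) =
      if bigT h b (2 ^ EP h b) tst τ v C = 0 then none
      else some (toF (bigC h b (2 ^ EP h b) τ g v C)) := by
  have h1 : 1 ≤ h := hF.1.2.2.1
  have b1 : 1 ≤ b := hF.1.2.2.2.1
  obtain ⟨_, _, _, p1, p2, _, _, p3, p4, _⟩ := hPB h b h1 b1
  have c2 : capPow 2 h (2 ^ EP h b) = 2 ^ h := by
    unfold capPow
    refine min_eq_left ?_
    have : 2 ^ h ≤ 2 ^ (h + 1) := Nat.pow_le_pow_right (by norm_num) (Nat.le_succ h)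
    omega
  have c4 : capPow 4 b (2 ^ EP h b) = 4 ^ b := by
    unfold capPow
    exact min_eq_left (by omega)
  refine hEE hCT hEB hEC hED tst (leafV h b (w.drop (h + b + 2)))
    (tabV h b (w.drop (h + b + 2))) h b (2 ^ EP h b) τ g v C p1 p2 hτ p3 ?_ ?_
  · intro hk
    rw [hv]
    unfold blkM leafV
    rw [hk, c2]
    rfl
  · intro hk
    rw [hv]
    unfold blkM tabV
    rw [hk, c2, c4, Nat.div_add_mod]
    rfl

theorem gFX : GoalFX := by
  intro hPB hCT hEB hEC hED hEE hInv ok tst mal w
  have key : ∀ x : Sta,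
      Relation.ReflTransGen (fun x x' => ∃ γ < 2, x' = (machM ok tst mal).nx w x γ) x accS →
      Inv ok tst mal w x → ∀ (h b u τ g v : ℕ) (C : C3),
      x = mainS h b u (2 ^ EP h b) τ g v C →
      ∃ g' < 4 ^ b, g' / 2 ^ (2 * b - u) = g ∧ ∃ E F : Fin 3 → ℕ × ℕ,
        opM tst h b w τ (g' / 2 ^ b) (g' % 2 ^ b) (toF C) = some E ∧
        Ch (fun t => opM tst h b w (τ + 1 + t)) (2 ^ b) (5 ^ h - (τ + 1)) E F := by
    intro x hx
    induction hx using Relation.ReflTransGen.head_induction_on with
    | refl =>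
      intro _ h b u τ g v C he
      exact absurd he (acc_ne_main _ _ _ _ _ _ _ _)
    | head hs hr ih =>
      rename_i x y
      intro hI h b u τ g v C he
      subst he
      obtain ⟨γ, hγ, hy⟩ := hs
      have hIy : Inv ok tst mal w y := by
        rw [hy]
        exact hInv ok tst mal w _ γ hγ hI
      obtain ⟨hF, hτ, hu, hg, hv⟩ := inv_main hI
      obtain ⟨z, hz | hz⟩ := nx_main ok tst mal w h b u (2 ^ EP h b) τ g v C γ
      · rw [hz] at hy
        rw [hy] at hr
        exact absurd (reach_rej ok tst mal w _ hr) acc_ne_rej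
      · rw [hz] at hy
        by_cases h1 : 2 * b - u = 0
        · rw [if_pos h1] at hy
          by_cases h2 : 3 * b - u = 0
          · rw [if_pos h2] at hy
            have hu3 : u = 3 * b := by omega
            have hub : u - 2 * b = b := by omega
            have hmin : min u (2 * b) = 2 * b := by omega
            rw [hub] at hv
            rw [hmin] at hg
            have hg4 : g < 4 ^ b := by
              have h4 : (4 : ℕ) ^ b = 2 ^ (2 * b) := by
                rw [pow_mul]
                norm_num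
              rw [h4]
              exact hg
            have hbig := big_step hPB hCT hEB hEC hED hEE tst C hF hτ hv
            by_cases h3 : bigT h b (2 ^ EP h b) tst τ v C = 0
            · rw [if_pos h3] at hy
              rw [hy] at hr
              exact absurd (reach_rej ok tst mal w _ hr) acc_ne_rej
            · rw [if_neg h3] at hy hbig
              refine ⟨g, hg4, ?_, ?_⟩
              · rw [h1, pow_zero, Nat.div_one]
              · by_cases h4 : (τ + 1) / 5 ^ h = 0
                · rw [if_pos h4] at hy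
                  obtain ⟨g', hg', _, E', F', hE', hF'⟩ := ih hIy h b 0 (τ + 1) 0 0 _ hy
                  refine ⟨_, F', hbig, ?_⟩
                  have hlt : τ + 1 < 5 ^ h := by
                    rcases (Nat.div_eq_zero_iff).mp h4 with h5 | h5
                    · exact absurd h5 (by positivity)
                    · exact h5
                  have hlen : 5 ^ h - (τ + 1) = (5 ^ h - (τ + 1 + 1)) + 1 := by omega
                  rw [hlen]
                  have hb0 : 0 < 2 ^ b := by positivity
                  have h4' : (4 : ℕ) ^ b = 2 ^ b * 2 ^ b := by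
                    rw [← mul_pow]
                    norm_num
                  refine ch_head (fun t => opM tst h b w (τ + 1 + t)) (2 ^ b)
                    (a := g' / 2 ^ b) (b := g' % 2 ^ b) ?_ (Nat.mod_lt _ hb0) hE' ?_
                  · rw [Nat.div_lt_iff_lt_mul hb0, ← h4']
                    exact hg'
                  · have hfun : (fun t => (fun t => opM tst h b w (τ + 1 + t)) (1 + t)) =
                        (fun t => opM tst h b w (τ + 1 + 1 + t)) := by
                      funext t
                      change opM tst h b w (τ + 1 + (1 + t)) = opM tst h b w (τ + 1 + 1 + t)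
                      rw [← Nat.add_assoc (τ + 1) 1 t]
                    rw [hfun]
                    exact hF'
                · have h5 : 5 ^ h ≤ τ + 1 := by
                    by_contra h6
                    exact h4 (Nat.div_eq_of_lt (by omega))
                  have hlen : 5 ^ h - (τ + 1) = 0 := by omega
                  refine ⟨_, toF (bigC h b (2 ^ EP h b) τ g v C), hbig, ?_⟩
                  rw [hlen]
                  exact Ch.zero _
          · rw [if_neg h2] at hy
            obtain ⟨g', hg', hd, E, F, hE, hCh⟩ := ih hIy h b (u + 1) τ g z C hy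
            refine ⟨g', hg', ?_, E, F, hE, hCh⟩
            have e1 : 2 * b - (u + 1) = 2 * b - u := by omega
            rw [← e1]
            exact hd
        · rw [if_neg h1] at hy
          obtain ⟨g', hg', hd, E, F, hE, hCh⟩ := ih hIy h b (u + 1) τ (2 * g + γ) v C hy
          refine ⟨g', hg', ?_, E, F, hE, hCh⟩
          have e1 : 2 * b - u = (2 * b - (u + 1)) + 1 := by omega
          rw [e1, pow_succ, ← Nat.div_div_eq_div_mul, hd]
          omega
  intro h b u τ g v C _ hI hr
  exact key _ hr hI h b u τ g v C rfl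

end Pool.Agent.Helper81.TE
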